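import Pool.Agent.H816R2.DF
import Pool.Agent.H816R2.S35D125
import Pool.Agent.H816R2.S35D137
import Pool.Agent.H816R2.S35D146
import Pool.Agent.H816R2.S35D197
import Pool.Agent.H816R2.S35D206

/-!
New Steiner systems `S(3,5,v)`, that is `S(v,5,3)` in the order of parameters of the problem:
`v = 125, 137, 146, 197, 206`, and the infinite families `v = 4^n u + 1` they generate.
-/

namespace Pool.Agent.Results.MP_409a13_co.BlockSize5Strength3

open Finset Pool.Agent.H816R2.DF Pool.Agent.H816R2.S35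

theorem toSteiner {m : ℕ} (h : ∃ 𝓑 : Set (Finset (Fin m)), IsS35 (Fin m) 𝓑) :
    ∃ 𝓑 : Finset (Finset (Fin m)), IsSteiner m 5 3 𝓑 := by
  classical
  obtain ⟨𝓑, h1, h2⟩ := h
  refine ⟨Finset.univ.filter (fun B => B ∈ 𝓑), ?_, ?_⟩
  · intro B hB
    exact h1 B (Finset.mem_filter.1 hB).2
  · intro T hT
    obtain ⟨a, b, c, hab, hac, hbc, rfl⟩ := Finset.card_eq_three.1 hT
    obtain ⟨B, ⟨hB, ha, hb, hc⟩, hu⟩ := h2 a b c hab hac hbc
    have hsub : ∀ C : Finset (Fin m), ({a, b, c} : Finset (Fin m)) ⊆ C ↔ a ∈ C ∧ b ∈ C ∧ c ∈ C := by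
      intro C
      rw [Finset.insert_subset_iff, Finset.insert_subset_iff, Finset.singleton_subset_iff]
    refine ⟨B, ⟨Finset.mem_filter.2 ⟨Finset.mem_univ _, hB⟩, (hsub B).2 ⟨ha, hb, hc⟩⟩, ?_⟩
    rintro C ⟨hC, hC'⟩
    obtain ⟨ha', hb', hc'⟩ := (hsub C).1 hC'
    exact hu C ⟨(Finset.mem_filter.1 hC).2, ha', hb', hc'⟩

/-- There is a Steiner system with blocks of size `5` and strength `3` on `4^n u + 1` points for
`u = 124, 136, 145, 196, 205` and every `n`. -/
theorem result : ∀ u ∈ ([124, 136, 145, 196, 205] : List ℕ), ∀ n : ℕ,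
    ∃ 𝓑 : Finset (Finset (Fin (u * 4 ^ n + 1))), IsSteiner (u * 4 ^ n + 1) 5 3 𝓑 := by
  intro u hu n
  refine toSteiner (ex_pow4 u ?_ n)
  simp only [List.mem_cons, List.not_mem_nil, or_false] at hu
  rcases hu with rfl | rfl | rfl | rfl | rfl
  · exact ex125
  · exact ex137
  · exact ex146
  · exact ex197
  · exact ex206

end Pool.Agent.Results.MP_409a13_co.BlockSize5Strength3
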