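import Pool.Agent.H117R2.Steiner5.Divis
import Pool.Agent.H117R2.Steiner5.V11
import Pool.Agent.H117R2.Steiner5.V23
import Pool.Agent.H117R2.Steiner5.V47
import Pool.Agent.H117R2.Steiner5.V71
import Pool.Agent.H117R2.Steiner5.V83
import Pool.Agent.H117R2.Steiner5.V107
import Pool.Agent.H117R2.Steiner5.V131
import Pool.Agent.H117R2.Steiner5.V167
import Pool.Agent.H117R2.Steiner5.V191
import Pool.Agent.H117R2.Steiner5.V227
import Pool.Agent.H117R2.Steiner5.V251
import Pool.Agent.H117R2.Steiner5.V263
import Pool.Agent.H117R2.Steiner5.V311

/-!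
Steiner systems `S(5,6,v)` and `S(4,5,v-1)`, that is `S(v,6,5)` and `S(v-1,5,4)` in the order of
parameters of the problem. The systems for `v = 192, 228, 252, 264, 312` are new. With the known
ones they show that for all primes `p < 347` with `p % 4 = 3` the divisibility condition is
sufficient for `S(p+1,6,5)` and for `S(p,5,4)`. All systems are invariant under `PSL(2,p)`; they
were found by computer and are checked here in the kernel through the triple system of the blocks
containing `∞, 0, 1`.
-/

namespace Pool.Agent.Results.MP_409a13_co.BlockSize6Strength5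

open Pool.Agent.H117R2.Steiner5

theorem exists_list : ∀ p ∈ ([11, 23, 47, 71, 83, 107, 131, 167, 191, 227, 251, 263, 311] : List ℕ),
    ∃ 𝓑 : Finset (Finset (Fin (p + 1))), IsSteiner (p + 1) 6 5 𝓑 := by
  intro p hp
  simp only [List.mem_cons, List.not_mem_nil, or_false] at hp
  rcases hp with rfl | rfl | rfl | rfl | rfl | rfl | rfl | rfl | rfl | rfl | rfl | rfl | rfl
  · exact D11.steiner
  · exact D23.steiner
  · exact D47.steiner
  · exact D71.steiner
  · exact D83.steiner
  · exact D107.steiner
  · exact D131.steiner
  · exact D167.steiner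
  · exact D191.steiner
  · exact D227.steiner
  · exact D251.steiner
  · exact D263.steiner
  · exact D311.steiner

/-- For `n = 192, 228, 252, 264, 312` there are Steiner systems with blocks of size `6` and
strength `5` on `n` points, and with blocks of size `5` and strength `4` on `n - 1` points. For all
primes `p < 347` of the form `4 k + 3` with `5 < p`, a Steiner system with blocks of size `6` and
strength `5` on `p + 1` points (blocks of size `5` and strength `4` on `p` points) exists if and
only if the divisibility condition holds. -/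
theorem result :
    (∀ n ∈ ([192, 228, 252, 264, 312] : List ℕ),
      (∃ 𝓑 : Finset (Finset (Fin n)), IsSteiner n 6 5 𝓑) ∧
        ∃ 𝓒 : Finset (Finset (Fin (n - 1))), IsSteiner (n - 1) 5 4 𝓒) ∧
    ∀ p : ℕ, p.Prime → p % 4 = 3 → 5 < p → p < 347 →
      ((∃ 𝓑 : Finset (Finset (Fin (p + 1))), IsSteiner (p + 1) 6 5 𝓑) ↔
        Divisibility (p + 1) 6 5) ∧
      ((∃ 𝓒 : Finset (Finset (Fin p)), IsSteiner p 5 4 𝓒) ↔ Divisibility p 5 4) := by
  refine ⟨?_, ?_⟩
  · intro n hn
    obtain ⟨p, rfl, hp⟩ : ∃ p, n = p + 1 ∧ p ∈ ([191, 227, 251, 263, 311] : List ℕ) := by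
      simp only [List.mem_cons, List.not_mem_nil, or_false] at hn
      rcases hn with rfl | rfl | rfl | rfl | rfl
      · exact ⟨191, rfl, by simp⟩
      · exact ⟨227, rfl, by simp⟩
      · exact ⟨251, rfl, by simp⟩
      · exact ⟨263, rfl, by simp⟩
      · exact ⟨311, rfl, by simp⟩
    have h := exists_list p (by
      simp only [List.mem_cons, List.not_mem_nil, or_false] at hp ⊢
      omega)
    exact ⟨h, derived h⟩
  · intro p hp h4 h5 h347
    refine ⟨⟨fun h => div_of_steiner (by norm_num) (by omega) h, fun h => ?_⟩,
      ⟨fun h => div_of_steiner (by norm_num) (by omega) h, fun h => ?_⟩⟩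
    · refine exists_list p (p_cases hp h4 h5 h347 ?_ ?_)
      · have := h 3 (by norm_num)
        simpa [show p + 1 - 3 = p - 2 by omega, Nat.choose] using this
      · have := h 1 (by norm_num)
        simpa [Nat.choose] using this
    · refine derived (exists_list p (p_cases hp h4 h5 h347 ?_ ?_))
      · have := h 2 (by norm_num)
        simpa [Nat.choose] using this
      · have := h 0 (by norm_num)
        simpa [Nat.choose] using this

end Pool.Agent.Results.MP_409a13_co.BlockSize6Strength5
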