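import Pool.Agent.H108R2.Bound3

/-!
# Steiner systems `S(n,q,2)` exist for all admissible `n ≥ q^(10^7 q)`
-/

namespace Pool.Agent.Results.MP_409a13_co.LinearExponent

open Finset

/-- For all `q ≥ 2` and `n ≥ q^(10^7 q)` a Steiner system `S(n,q,2)` exists if and only if the
divisibility condition (D) holds. -/
theorem result : ∀ q n : ℕ, 2 ≤ q → q ^ (10 ^ 7 * q) ≤ n →
    ((∃ B : Finset (Finset (Fin n)), (∀ b ∈ B, b.card = q) ∧
        ∀ T : Finset (Fin n), T.card = 2 → ∃! b, b ∈ B ∧ T ⊆ b) ↔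
      ∀ i < 2, (q - i).choose (2 - i) ∣ (n - i).choose (2 - i)) := by
  intro q n hq hn
  have hn0 : 0 < n := lt_of_lt_of_le (Nat.pow_pos (by omega)) hn
  exact H108.steiner_iff hq hn0 fun h3 hA => H108.main3 h3 hA hn

end Pool.Agent.Results.MP_409a13_co.LinearExponent
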