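import Pool.Agent.H816R2.DFData
import Pool.Agent.H816R2.KD6_226

/-!
New Steiner systems of strength two: `S(n,q,2)` for
`(n,q) = (226,6), (505,7), (589,7), (925,7), (1387,7), (873,9)`.
-/

namespace Pool.Agent.Results.MP_409a13_co.TwoDesigns

open Finset Pool.Agent.H816R2.DF Pool.Agent.H816R2.KM2

theorem toSteiner {m k : ℕ} (h : ∃ 𝓑 : Set (Finset (Fin m)), IsS2 (Fin m) k 𝓑) :
    ∃ 𝓑 : Finset (Finset (Fin m)), IsSteiner m k 2 𝓑 := by
  classical
  obtain ⟨𝓑, h1, h2⟩ := h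
  refine ⟨Finset.univ.filter (fun B => B ∈ 𝓑), ?_, ?_⟩
  · intro B hB
    exact h1 B (Finset.mem_filter.1 hB).2
  · intro T hT
    obtain ⟨a, b, hab, rfl⟩ := Finset.card_eq_two.1 hT
    obtain ⟨B, ⟨hB, ha, hb⟩, hu⟩ := h2 a b hab
    have hsub : ∀ C : Finset (Fin m), ({a, b} : Finset (Fin m)) ⊆ C ↔ a ∈ C ∧ b ∈ C := by
      intro C
      rw [Finset.insert_subset_iff, Finset.singleton_subset_iff]
    refine ⟨B, ⟨Finset.mem_filter.2 ⟨Finset.mem_univ _, hB⟩, (hsub B).2 ⟨ha, hb⟩⟩, ?_⟩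
    rintro C ⟨hC, hC'⟩
    obtain ⟨ha', hb'⟩ := (hsub C).1 hC'
    exact hu C ⟨(Finset.mem_filter.1 hC).2, ha', hb'⟩

/-- There is a Steiner system `S(n,q,2)` for each `(n,q)` in the list. -/
theorem result : ∀ p ∈ ([(226, 6), (505, 7), (589, 7), (925, 7), (1387, 7), (873, 9)] :
    List (ℕ × ℕ)), ∃ 𝓑 : Finset (Finset (Fin p.1)), IsSteiner p.1 p.2 2 𝓑 := by
  intro p hp
  simp only [List.mem_cons, List.not_mem_nil, or_false] at hp
  rcases hp with rfl | rfl | rfl | rfl | rfl | rfl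
  · exact toSteiner ex6_226
  · exact s505
  · exact s589
  · exact s925
  · exact s1387
  · exact s873

end Pool.Agent.Results.MP_409a13_co.TwoDesigns
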